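import Mathlib

/-! Tilings by a triangle with sides `a, b, c` and a 120 degree angle: tools.
The plane is `ℝ × ℝ` with coordinates with respect to `1, ω`. -/

namespace Pool.Agent.Lib.Pd0305a

open Set

/-- squared length of the vector `p.1 + p.2 * ω` -/
def q (p : ℝ × ℝ) : ℝ := p.1 ^ 2 + p.1 * p.2 + p.2 ^ 2

/-- a copy of the tile -/
def Cp (a b c : ℝ) (S : Set (ℝ × ℝ)) : Prop :=
  ∃ A B C : ℝ × ℝ, q (B - C) = a ^ 2 ∧ q (C - A) = b ^ 2 ∧ q (A - B) = c ^ 2 ∧
    S = convexHull ℝ {A, B, C}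

/-- `S` is tiled by `N` copies of the tile -/
def Tl (a b c : ℝ) (S : Set (ℝ × ℝ)) (N : ℕ) : Prop :=
  ∃ t : Fin N → Set (ℝ × ℝ), (∀ i, Cp a b c (t i)) ∧ (⋃ i, t i) = S ∧
    ∀ i j, i ≠ j → Disjoint (interior (t i)) (interior (t j))

theorem Tl.union {a b c : ℝ} {S T : Set (ℝ × ℝ)} {N M : ℕ} (hS : Tl a b c S N)
    (hT : Tl a b c T M) (hd : Disjoint (interior S) (interior T)) :
    Tl a b c (S ∪ T) (N + M) := by
  obtain ⟨s, hs1, hs2, hs3⟩ := hS
  obtain ⟨t, ht1, ht2, ht3⟩ := hT
  have hsS : ∀ i, s i ⊆ S := fun i => hs2 ▸ subset_iUnion s i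
  have htT : ∀ i, t i ⊆ T := fun i => ht2 ▸ subset_iUnion t i
  refine ⟨Fin.append s t, ?_, ?_, ?_⟩
  · intro i
    refine Fin.addCases (fun i => ?_) (fun i => ?_) i
    · simpa using hs1 i
    · simpa using ht1 i
  · apply Subset.antisymm
    · refine iUnion_subset fun i => ?_
      refine Fin.addCases (fun i => ?_) (fun i => ?_) i
      · simpa using (hsS i).trans subset_union_left
      · simpa using (htT i).trans subset_union_right
    · rw [← hs2, ← ht2]
      refine union_subset (iUnion_subset fun i => ?_) (iUnion_subset fun i => ?_)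
      · have := subset_iUnion (Fin.append s t) (Fin.castAdd M i)
        simpa using this
      · have := subset_iUnion (Fin.append s t) (Fin.natAdd N i)
        simpa using this
  · intro i j
    refine Fin.addCases (fun i => ?_) (fun i => ?_) i <;>
    refine Fin.addCases (fun j => ?_) (fun j => ?_) j
    · intro hij
      simp only [Fin.append_left]
      exact hs3 i j (fun h => hij (by rw [h]))
    · intro _
      simp only [Fin.append_left, Fin.append_right]
      exact hd.mono (interior_mono (hsS i)) (interior_mono (htT j))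
    · intro _
      simp only [Fin.append_left, Fin.append_right]
      exact (hd.mono (interior_mono (hsS j)) (interior_mono (htT i))).symm
    · intro hij
      simp only [Fin.append_right]
      exact ht3 i j (fun h => hij (by rw [h]))

theorem Tl.union3 {a b c : ℝ} {S T U : Set (ℝ × ℝ)} {N M L : ℕ} (hS : Tl a b c S N)
    (hT : Tl a b c T M) (hU : Tl a b c U L) (hd : Disjoint (interior S) (interior T))
    (hd1 : Disjoint (interior S) (interior U)) (hd2 : Disjoint (interior T) (interior U)) :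
    Tl a b c (S ∪ T ∪ U) (N + M + L) := by
  obtain ⟨s, hs1, hs2, hs3⟩ := hS
  obtain ⟨t, ht1, ht2, ht3⟩ := hT
  obtain ⟨r, hr1, hr2, hr3⟩ := hU
  have hsS : ∀ i, s i ⊆ S := fun i => hs2 ▸ subset_iUnion s i
  have htT : ∀ i, t i ⊆ T := fun i => ht2 ▸ subset_iUnion t i
  have hrU : ∀ i, r i ⊆ U := fun i => hr2 ▸ subset_iUnion r i
  refine ⟨Fin.append (Fin.append s t) r, ?_, ?_, ?_⟩
  · intro i
    refine Fin.addCases (fun i => ?_) (fun i => ?_) i
    · refine Fin.addCases (fun i => ?_) (fun i => ?_) i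
      · simpa using hs1 i
      · simpa using ht1 i
    · simpa using hr1 i
  · apply Subset.antisymm
    · refine iUnion_subset fun i => ?_
      refine Fin.addCases (fun i => ?_) (fun i => ?_) i
      · refine Fin.addCases (fun i => ?_) (fun i => ?_) i
        · simpa using ((hsS i).trans subset_union_left).trans subset_union_left
        · simpa using ((htT i).trans subset_union_right).trans subset_union_left
      · simpa using (hrU i).trans subset_union_right
    · rw [← hs2, ← ht2, ← hr2]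
      refine union_subset (union_subset (iUnion_subset fun i => ?_)
        (iUnion_subset fun i => ?_)) (iUnion_subset fun i => ?_)
      · have := subset_iUnion (Fin.append (Fin.append s t) r)
          (Fin.castAdd L (Fin.castAdd M i))
        simpa using this
      · have := subset_iUnion (Fin.append (Fin.append s t) r)
          (Fin.castAdd L (Fin.natAdd N i))
        simpa using this
      · have := subset_iUnion (Fin.append (Fin.append s t) r) (Fin.natAdd (N + M) i)
        simpa using this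
  · have hst : ∀ i j, i ≠ j →
        Disjoint (interior (Fin.append s t i)) (interior (Fin.append s t j)) := by
      intro i j
      refine Fin.addCases (fun i => ?_) (fun i => ?_) i <;>
      refine Fin.addCases (fun j => ?_) (fun j => ?_) j
      · intro hij
        simp only [Fin.append_left]
        exact hs3 i j (fun h => hij (by rw [h]))
      · intro _
        simp only [Fin.append_left, Fin.append_right]
        exact hd.mono (interior_mono (hsS i)) (interior_mono (htT j))
      · intro _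
        simp only [Fin.append_left, Fin.append_right]
        exact (hd.mono (interior_mono (hsS j)) (interior_mono (htT i))).symm
      · intro hij
        simp only [Fin.append_right]
        exact ht3 i j (fun h => hij (by rw [h]))
    have hstr : ∀ i j, Disjoint (interior (Fin.append s t i)) (interior (r j)) := by
      intro i j
      refine Fin.addCases (fun i => ?_) (fun i => ?_) i
      · simp only [Fin.append_left]
        exact hd1.mono (interior_mono (hsS i)) (interior_mono (hrU j))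
      · simp only [Fin.append_right]
        exact hd2.mono (interior_mono (htT i)) (interior_mono (hrU j))
    intro i j
    refine Fin.addCases (fun i => ?_) (fun i => ?_) i <;>
    refine Fin.addCases (fun j => ?_) (fun j => ?_) j
    · intro hij
      rw [Fin.append_left, Fin.append_left]
      exact hst i j (fun h => hij (by rw [h]))
    · intro _
      rw [Fin.append_left, Fin.append_right]
      exact hstr i j
    · intro _
      rw [Fin.append_left, Fin.append_right]
      exact (hstr j i).symm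
    · intro hij
      rw [Fin.append_right, Fin.append_right]
      exact hr3 i j (fun h => hij (by rw [h]))

/-- separation by a line -/
theorem disj_of_sep (α β r : ℝ) (h : α ≠ 0 ∨ β ≠ 0) {S T : Set (ℝ × ℝ)}
    (hS : ∀ z ∈ S, α * z.1 + β * z.2 ≤ r) (hT : ∀ z ∈ T, r ≤ α * z.1 + β * z.2) :
    Disjoint (interior S) (interior T) := by
  rw [Set.disjoint_left]
  intro z hz1 hz2
  have ho : IsOpen (interior S ∩ interior T) := isOpen_interior.inter isOpen_interior
  have hc : Continuous (fun t : ℝ => z + t • ((α, β) : ℝ × ℝ)) := by fun_prop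
  have ho' := ho.preimage hc
  obtain ⟨ε, hε, hb⟩ := Metric.isOpen_iff.1 ho' 0 (by
    simp only [mem_preimage, zero_smul, add_zero]; exact ⟨hz1, hz2⟩)
  have hm := @hb (ε / 2) (by
    rw [Metric.mem_ball, dist_zero_right, Real.norm_eq_abs, abs_of_pos (by positivity)]
    linarith)
  have h1 := hS _ (interior_subset hm.1)
  have h2 := hT z (interior_subset hz2)
  simp only [Prod.fst_add, Prod.snd_add, Prod.smul_mk, smul_eq_mul] at h1
  have h3 : 0 < α ^ 2 + β ^ 2 := by
    rcases h with h | h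
    · have := sq_pos_of_ne_zero h; nlinarith [sq_nonneg β]
    · have := sq_pos_of_ne_zero h; nlinarith [sq_nonneg α]
  nlinarith [mul_pos hε h3]

/-- the convex hull of a triangle -/
theorem hull_eq {E : Type*} [AddCommGroup E] [Module ℝ E] (P u v : E) :
    convexHull ℝ {P, P + u, P + v} =
      {z | ∃ s t : ℝ, 0 ≤ s ∧ 0 ≤ t ∧ s + t ≤ 1 ∧ z = P + s • u + t • v} := by
  apply Subset.antisymm
  · apply convexHull_min
    · rintro z (rfl | rfl | rfl)
      · exact ⟨0, 0, by norm_num, by norm_num, by norm_num, by simp⟩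
      · exact ⟨1, 0, by norm_num, by norm_num, by norm_num, by simp⟩
      · exact ⟨0, 1, by norm_num, by norm_num, by norm_num, by simp⟩
    · rintro x ⟨s, t, hs, ht, hst, rfl⟩ y ⟨s', t', hs', ht', hst', rfl⟩ α β hα hβ hαβ
      refine ⟨α * s + β * s', α * t + β * t', by positivity, by positivity, ?_, ?_⟩
      · nlinarith
      · have : α = 1 - β := by linarith
        subst this
        module
  · rintro z ⟨s, t, hs, ht, hst, rfl⟩
    have hc := convex_convexHull ℝ ({P, P + u, P + v} : Set E)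
    have := hc.sum_mem (t := (Finset.univ : Finset (Fin 3))) (w := ![1 - s - t, s, t])
      (z := ![P, P + u, P + v]) (by
        intro i _
        fin_cases i
        · simp; linarith
        · simpa using hs
        · simpa using ht) (by simp [Fin.sum_univ_three]; ring) (by
        intro i _
        apply subset_convexHull
        fin_cases i <;> simp)
    rw [Fin.sum_univ_three] at this
    simp only [Matrix.cons_val_zero, Matrix.cons_val_one, Matrix.cons_val_two, Matrix.head_cons,
      Matrix.tail_cons, Matrix.cons_val] at this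
    convert this using 1
    module

theorem Cp.map {a b c : ℝ} {S : Set (ℝ × ℝ)} (h : Cp a b c S) (P : ℝ × ℝ)
    (L : (ℝ × ℝ) →ₗ[ℝ] (ℝ × ℝ)) (hL : ∀ x, q (L x) = q x) :
    Cp a b c ((fun x => P + L x) '' S) := by
  obtain ⟨A, B, C, h1, h2, h3, rfl⟩ := h
  refine ⟨P + L A, P + L B, P + L C, ?_, ?_, ?_, ?_⟩
  · rw [add_sub_add_left_eq_sub, ← map_sub, hL, h1]
  · rw [add_sub_add_left_eq_sub, ← map_sub, hL, h2]
  · rw [add_sub_add_left_eq_sub, ← map_sub, hL, h3]
  · have := AffineMap.image_convexHull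
      ((AffineMap.const ℝ (ℝ × ℝ) P) + L.toAffineMap) {A, B, C}
    have he : (⇑((AffineMap.const ℝ (ℝ × ℝ) P) + L.toAffineMap) : ℝ × ℝ → ℝ × ℝ) =
        fun x => P + L x := by
      ext x <;> simp
    rw [he] at this
    rw [this, image_insert_eq, image_insert_eq, image_singleton]

theorem Tl.map {a b c : ℝ} {S : Set (ℝ × ℝ)} {N : ℕ} (h : Tl a b c S N) (P : ℝ × ℝ)
    (L : (ℝ × ℝ) →ₗ[ℝ] (ℝ × ℝ)) (hL : ∀ x, q (L x) = q x) (hi : Function.Injective L) :
    Tl a b c ((fun x => P + L x) '' S) N := by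
  obtain ⟨t, h1, h2, h3⟩ := h
  refine ⟨fun i => (fun x => P + L x) '' t i, fun i => (h1 i).map P L hL, ?_, ?_⟩
  · rw [← h2, image_iUnion]
  · intro i j hij
    have hc : Continuous (fun x => P + L x) :=
      continuous_const.add L.continuous_of_finiteDimensional
    have hinj : Function.Injective (fun x => P + L x) := fun x y hxy =>
      hi (add_left_cancel hxy)
    have key : ∀ k, (fun x => P + L x) ⁻¹' interior ((fun x => P + L x) '' t k) ⊆
        interior (t k) := by
      intro k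
      apply interior_maximal
      · intro x hx
        have := interior_subset hx
        obtain ⟨y, hy, hxy⟩ := this
        rwa [← hinj hxy]
      · exact isOpen_interior.preimage hc
    rw [Set.disjoint_left]
    intro z hz1 hz2
    obtain ⟨x, hx, rfl⟩ := interior_subset hz1
    exact Set.disjoint_left.1 (h3 i j hij) (key i hz1) (key j hz2)

theorem Tl.translate {a b c : ℝ} {S : Set (ℝ × ℝ)} {N : ℕ} (h : Tl a b c S N) (P : ℝ × ℝ) :
    Tl a b c {z | z - P ∈ S} N := by
  have := h.map P LinearMap.id (fun x => rfl) (fun x y h => h)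
  convert this using 1
  ext z
  simp only [LinearMap.id_coe, id_eq, Set.mem_ofPred_eq, mem_image]
  constructor
  · intro hz
    exact ⟨z - P, hz, by abel⟩
  · rintro ⟨x, hx, rfl⟩
    simpa using hx

/-- affine region -/
def G (P u v : ℝ × ℝ) (R : ℝ → ℝ → Prop) : Set (ℝ × ℝ) :=
  {z | ∃ s t : ℝ, R s t ∧ z = P + s • u + t • v}

theorem G_shift (P u v : ℝ × ℝ) (R : ℝ → ℝ → Prop) (i j : ℝ) :
    G P u v R = G (P + i • u + j • v) u v (fun s t => R (s + i) (t + j)) := by
  ext z
  constructor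
  · rintro ⟨s, t, h, rfl⟩
    refine ⟨s - i, t - j, by simpa using h, ?_⟩
    module
  · rintro ⟨s, t, h, rfl⟩
    refine ⟨s + i, t + j, h, ?_⟩
    module

theorem G_union (P u v : ℝ × ℝ) (R1 R2 R : ℝ → ℝ → Prop)
    (h : ∀ s t, R s t ↔ R1 s t ∨ R2 s t) : G P u v R = G P u v R1 ∪ G P u v R2 := by
  ext z
  constructor
  · rintro ⟨s, t, hR, rfl⟩
    rcases (h s t).1 hR with h1 | h1
    · exact Or.inl ⟨s, t, h1, rfl⟩
    · exact Or.inr ⟨s, t, h1, rfl⟩
  · rintro (⟨s, t, hR, rfl⟩ | ⟨s, t, hR, rfl⟩)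
    · exact ⟨s, t, (h s t).2 (Or.inl hR), rfl⟩
    · exact ⟨s, t, (h s t).2 (Or.inr hR), rfl⟩

theorem G_sep (P u v : ℝ × ℝ) (hD : u.1 * v.2 - u.2 * v.1 ≠ 0) (R1 R2 : ℝ → ℝ → Prop)
    (α β r : ℝ) (h : α ≠ 0 ∨ β ≠ 0) (h1 : ∀ s t, R1 s t → α * s + β * t ≤ r)
    (h2 : ∀ s t, R2 s t → r ≤ α * s + β * t) :
    Disjoint (interior (G P u v R1)) (interior (G P u v R2)) := by
  obtain ⟨D, hDd⟩ : ∃ D, D = u.1 * v.2 - u.2 * v.1 := ⟨_, rfl⟩
  rw [← hDd] at hD
  have hD2 : 0 < D ^ 2 := by positivity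
  have key : ∀ s t : ℝ, D * (α * v.2 - β * u.2) * (P + s • u + t • v).1 +
      D * (-α * v.1 + β * u.1) * (P + s • u + t • v).2 =
      D ^ 2 * (α * s + β * t) + (D * (α * v.2 - β * u.2) * P.1 +
        D * (-α * v.1 + β * u.1) * P.2) := by
    intro s t
    simp only [Prod.fst_add, Prod.snd_add, Prod.smul_fst, Prod.smul_snd, smul_eq_mul]
    rw [hDd]; ring
  apply disj_of_sep (D * (α * v.2 - β * u.2)) (D * (-α * v.1 + β * u.1))
    (D ^ 2 * r + (D * (α * v.2 - β * u.2) * P.1 + D * (-α * v.1 + β * u.1) * P.2))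
  · by_contra hcon
    rw [not_or, not_not, not_not] at hcon
    obtain ⟨hc1, hc2⟩ := hcon
    have hc1' : α * v.2 - β * u.2 = 0 := by
      rcases mul_eq_zero.1 hc1 with h | h
      · exact absurd h hD
      · exact h
    have hc2' : -α * v.1 + β * u.1 = 0 := by
      rcases mul_eq_zero.1 hc2 with h | h
      · exact absurd h hD
      · exact h
    have ha : α * D = 0 := by
      rw [hDd]; linear_combination u.1 * hc1' + u.2 * hc2'
    have hb : β * D = 0 := by
      rw [hDd]; linear_combination v.1 * hc1' + v.2 * hc2'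
    rcases h with h | h
    · exact h ((mul_eq_zero.1 ha).resolve_right hD)
    · exact h ((mul_eq_zero.1 hb).resolve_right hD)
  · rintro z ⟨s, t, hR, rfl⟩
    rw [key]
    have := h1 s t hR
    nlinarith
  · rintro z ⟨s, t, hR, rfl⟩
    rw [key]
    have := h2 s t hR
    nlinarith

/-- `u, v` span a tile -/
def TB (a b c : ℝ) (u v : ℝ × ℝ) : Prop :=
  u.1 * v.2 - u.2 * v.1 ≠ 0 ∧ Cp a b c (convexHull ℝ {0, u, v})

theorem TB.of {a b c : ℝ} {u v : ℝ × ℝ} (hD : u.1 * v.2 - u.2 * v.1 ≠ 0)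
    (h1 : q u = a ^ 2) (h2 : q v = b ^ 2) (h3 : q (u - v) = c ^ 2) : TB a b c u v := by
  refine ⟨hD, v, u, 0, by simpa using h1, by simpa [q] using h2, ?_, ?_⟩
  · rw [← h3]; simp [q]; ring
  · congr 1
    ext x
    simp only [mem_insert_iff, mem_singleton_iff]
    tauto

theorem TB.of' {a b c : ℝ} {u v : ℝ × ℝ} (hD : u.1 * v.2 - u.2 * v.1 ≠ 0)
    (h1 : q u = b ^ 2) (h2 : q v = a ^ 2) (h3 : q (u - v) = c ^ 2) : TB a b c u v := by
  refine ⟨hD, u, v, 0, by simpa using h2, by simpa [q] using h1, ?_, ?_⟩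
  · rw [← h3]
  · congr 1
    ext x
    simp only [mem_insert_iff, mem_singleton_iff]
    tauto

theorem TB.of'' {a b c : ℝ} {u v : ℝ × ℝ} (hD : u.1 * v.2 - u.2 * v.1 ≠ 0)
    (h1 : q u = c ^ 2) (h2 : q v = a ^ 2) (h3 : q (u - v) = b ^ 2) : TB a b c u v := by
  refine ⟨hD, u, 0, v, by simpa [q] using h2, ?_, by simpa [q] using h1, ?_⟩
  · rw [← h3]; simp [q]; ring
  · congr 1
    ext x
    simp only [mem_insert_iff, mem_singleton_iff]
    tauto

theorem TB.up {a b c : ℝ} {u v : ℝ × ℝ} (h : TB a b c u v) (P : ℝ × ℝ) :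
    Tl a b c (G P u v (fun s t => 0 ≤ s ∧ 0 ≤ t ∧ s + t ≤ 1)) 1 := by
  have h1 := h.2.map P LinearMap.id (fun x => rfl)
  refine ⟨fun _ => (fun x => P + LinearMap.id x) '' (convexHull ℝ {0, u, v}),
    fun _ => h1, ?_, fun i j hij => absurd (Subsingleton.elim i j) hij⟩
  rw [iUnion_const]
  have h2 := hull_eq (0 : ℝ × ℝ) u v
  rw [zero_add, zero_add] at h2
  rw [h2]
  ext z
  simp only [LinearMap.id_coe, id_eq, mem_image, Set.mem_ofPred_eq, G]
  constructor
  · rintro ⟨x, ⟨s, t, hs, ht, hst, rfl⟩, rfl⟩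
    exact ⟨s, t, ⟨hs, ht, hst⟩, by module⟩
  · rintro ⟨s, t, ⟨hs, ht, hst⟩, rfl⟩
    exact ⟨s • u + t • v, ⟨s, t, hs, ht, hst, by module⟩, by module⟩

theorem TB.down {a b c : ℝ} {u v : ℝ × ℝ} (h : TB a b c u v) (P : ℝ × ℝ) :
    Tl a b c (G P u v (fun s t => s ≤ 1 ∧ t ≤ 1 ∧ 1 ≤ s + t)) 1 := by
  have h1 := h.2.map (P + u + v) (-LinearMap.id) (fun x => by simp [q])
  refine ⟨fun _ => (fun x => P + u + v + (-LinearMap.id : (ℝ × ℝ) →ₗ[ℝ] (ℝ × ℝ)) x) ''
    (convexHull ℝ {0, u, v}),
    fun _ => h1, ?_, fun i j hij => absurd (Subsingleton.elim i j) hij⟩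
  rw [iUnion_const]
  have h2 := hull_eq (0 : ℝ × ℝ) u v
  rw [zero_add, zero_add] at h2
  rw [h2]
  ext z
  simp only [LinearMap.neg_apply, LinearMap.id_coe, id_eq, mem_image, Set.mem_ofPred_eq, G]
  constructor
  · rintro ⟨x, ⟨s, t, hs, ht, hst, rfl⟩, rfl⟩
    exact ⟨1 - s, 1 - t, ⟨by linarith, by linarith, by linarith⟩, by module⟩
  · rintro ⟨s, t, ⟨hs, ht, hst⟩, rfl⟩
    exact ⟨(1 - s) • u + (1 - t) • v, ⟨1 - s, 1 - t, by linarith, by linarith, by linarith,
      by module⟩, by module⟩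

theorem TB.cell {a b c : ℝ} {u v : ℝ × ℝ} (h : TB a b c u v) (P : ℝ × ℝ) :
    Tl a b c (G P u v (fun s t => 0 ≤ s ∧ s ≤ 1 ∧ 0 ≤ t ∧ t ≤ 1)) 2 := by
  rw [G_union P u v (fun s t => 0 ≤ s ∧ 0 ≤ t ∧ s + t ≤ 1)
    (fun s t => s ≤ 1 ∧ t ≤ 1 ∧ 1 ≤ s + t)]
  · apply (h.up P).union (h.down P)
    apply G_sep P u v h.1 _ _ 1 1 1 (Or.inl one_ne_zero)
    · rintro s t ⟨_, _, h⟩; linarith
    · rintro s t ⟨_, _, h⟩; linarith
  · intro s t
    constructor
    · rintro ⟨h1, h2, h3, h4⟩
      rcases le_total (s + t) 1 with h | h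
      · exact Or.inl ⟨h1, h3, h⟩
      · exact Or.inr ⟨h2, h4, h⟩
    · rintro (⟨h1, h2, h3⟩ | ⟨h1, h2, h3⟩)
      · exact ⟨h1, by linarith, h2, by linarith⟩
      · exact ⟨by linarith, h1, by linarith, h2⟩

theorem TB.col {a b c : ℝ} {u v : ℝ × ℝ} (h : TB a b c u v) (P : ℝ × ℝ) (n : ℕ) (hn : 1 ≤ n) :
    Tl a b c (G P u v (fun s t => 0 ≤ s ∧ s ≤ 1 ∧ 0 ≤ t ∧ t ≤ n)) (2 * n) := by
  induction n, hn using Nat.le_induction with
  | base => simpa using h.cell P
  | succ n hn ih =>
    rw [G_union P u v (fun s t => 0 ≤ s ∧ s ≤ 1 ∧ 0 ≤ t ∧ t ≤ n)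
      (fun s t => 0 ≤ s ∧ s ≤ 1 ∧ n ≤ t ∧ t ≤ n + 1)]
    · rw [mul_add, mul_one]
      apply ih.union
      · rw [G_shift P u v _ 0 n]
        convert h.cell (P + (0 : ℝ) • u + (n : ℝ) • v) using 2
        funext s t
        rw [add_zero]
        apply propext
        constructor
        · rintro ⟨h1, h2, h3, h4⟩
          exact ⟨h1, h2, by linarith, by linarith⟩
        · rintro ⟨h1, h2, h3, h4⟩
          exact ⟨h1, h2, by linarith, by linarith⟩
      · apply G_sep P u v h.1 _ _ 0 1 n (Or.inr one_ne_zero)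
        · rintro s t ⟨_, _, _, h⟩; linarith
        · rintro s t ⟨_, _, h, _⟩; linarith
    · intro s t
      push_cast
      constructor
      · rintro ⟨h1, h2, h3, h4⟩
        rcases le_total t n with h | h
        · exact Or.inl ⟨h1, h2, h3, h⟩
        · exact Or.inr ⟨h1, h2, h, h4⟩
      · have : (0 : ℝ) ≤ n := Nat.cast_nonneg n
        rintro (⟨h1, h2, h3, h4⟩ | ⟨h1, h2, h3, h4⟩)
        · exact ⟨h1, h2, h3, by linarith⟩
        · exact ⟨h1, h2, by linarith, h4⟩

theorem TB.tri {a b c : ℝ} {u v : ℝ × ℝ} (h : TB a b c u v) (P : ℝ × ℝ) (n : ℕ) (hn : 1 ≤ n) :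
    Tl a b c (G P u v (fun s t => 0 ≤ s ∧ 0 ≤ t ∧ s + t ≤ n)) (n ^ 2) := by
  induction n, hn using Nat.le_induction generalizing P with
  | base => simpa using h.up P
  | succ n hn ih =>
    have hn0 : (1 : ℝ) ≤ n := by exact_mod_cast hn
    rw [G_union P u v (fun s t => (0 ≤ s ∧ s ≤ 1 ∧ 0 ≤ t ∧ t ≤ n) ∨
      (1 ≤ s ∧ 0 ≤ t ∧ s + t ≤ n + 1)) (fun s t => 0 ≤ s ∧ n ≤ t ∧ s + t ≤ n + 1),
      G_union P u v (fun s t => 0 ≤ s ∧ s ≤ 1 ∧ 0 ≤ t ∧ t ≤ n)
      (fun s t => 1 ≤ s ∧ 0 ≤ t ∧ s + t ≤ n + 1) _ (fun s t => Iff.rfl)]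
    · have hN : (n + 1) ^ 2 = 2 * n + n ^ 2 + 1 := by ring
      rw [hN]
      apply ((h.col P n hn).union _ _).union
      · rw [G_shift P u v _ 0 n]
        convert h.up (P + (0 : ℝ) • u + (n : ℝ) • v) using 2
        funext s t
        rw [add_zero]
        apply propext
        constructor
        · rintro ⟨h1, h2, h3⟩
          exact ⟨h1, by linarith, by linarith⟩
        · rintro ⟨h1, h2, h3⟩
          exact ⟨h1, by linarith, by linarith⟩
      · rw [← G_union P u v _ _ _ (fun s t => Iff.rfl)]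
        apply G_sep P u v h.1 _ _ 0 1 n (Or.inr one_ne_zero)
        · rintro s t (⟨_, _, _, h⟩ | ⟨h1, h2, h3⟩)
          · linarith
          · linarith
        · rintro s t ⟨_, h, _⟩; linarith
      · rw [G_shift P u v _ 1 0]
        convert ih (P + (1 : ℝ) • u + (0 : ℝ) • v) using 2
        funext s t
        rw [add_zero]
        apply propext
        constructor
        · rintro ⟨h1, h2, h3⟩
          exact ⟨by linarith, by linarith, by linarith⟩
        · rintro ⟨h1, h2, h3⟩
          exact ⟨by linarith, by linarith, by linarith⟩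
      · apply G_sep P u v h.1 _ _ 1 0 1 (Or.inl one_ne_zero)
        · rintro s t ⟨_, h, _, _⟩; linarith
        · rintro s t ⟨h, _, _⟩; linarith
    · intro s t
      push_cast
      constructor
      · rintro ⟨h1, h2, h3⟩
        rcases le_total t n with h | h
        · rcases le_total s 1 with h' | h'
          · exact Or.inl (Or.inl ⟨h1, h', h2, h⟩)
          · exact Or.inl (Or.inr ⟨h', h2, h3⟩)
        · exact Or.inr ⟨h1, h, h3⟩
      · rintro ((⟨h1, h2, h3, h4⟩ | ⟨h1, h2, h3⟩) | ⟨h1, h2, h3⟩)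
        · exact ⟨h1, h3, by linarith⟩
        · exact ⟨by linarith, h2, h3⟩
        · exact ⟨h1, by linarith, h3⟩

end Pool.Agent.Lib.Pd0305a
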