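import Pool.Agent.Lib.Pd0305a.Basic

namespace Pool.Agent.Lib.Pd0305a

open Set

theorem G_eq {P u v : ℝ × ℝ} {R : ℝ → ℝ → Prop} {S : Set (ℝ × ℝ)}
    (hD : u.1 * v.2 - u.2 * v.1 ≠ 0) (s t : ℝ × ℝ → ℝ)
    (h1 : ∀ z, P + s z • u + t z • v = z) (h2 : ∀ z, z ∈ S ↔ R (s z) (t z)) :
    S = G P u v R := by
  ext z
  rw [h2]
  constructor
  · intro h
    exact ⟨s z, t z, h, (h1 z).symm⟩
  · rintro ⟨x, y, hR, hz⟩
    have h3 := h1 z
    have e1 : (s z - x) * u.1 + (t z - y) * v.1 = 0 := by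
      have e := congrArg Prod.fst (h3.trans hz)
      simp only [Prod.fst_add, Prod.smul_fst, smul_eq_mul] at e
      linarith
    have e2 : (s z - x) * u.2 + (t z - y) * v.2 = 0 := by
      have e := congrArg Prod.snd (h3.trans hz)
      simp only [Prod.snd_add, Prod.smul_snd, smul_eq_mul] at e
      linarith
    have e3 : (s z - x) * (u.1 * v.2 - u.2 * v.1) = 0 := by
      linear_combination v.2 * e1 - v.1 * e2
    have e4 : (t z - y) * (u.1 * v.2 - u.2 * v.1) = 0 := by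
      linear_combination u.1 * e2 - u.2 * e1
    have e5 := (mul_eq_zero.1 e3).resolve_right hD
    have e6 := (mul_eq_zero.1 e4).resolve_right hD
    rw [show s z = x by linarith, show t z = y by linarith]
    exact hR

theorem Tl.ofG {a b c : ℝ} {N : ℕ} {P u v : ℝ × ℝ} {R : ℝ → ℝ → Prop} {S : Set (ℝ × ℝ)}
    (hD : u.1 * v.2 - u.2 * v.1 ≠ 0) (s t : ℝ × ℝ → ℝ) (hT : Tl a b c (G P u v R) N)
    (h1 : ∀ z, P + s z • u + t z • v = z) (h2 : ∀ z, z ∈ S ↔ R (s z) (t z)) :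
    Tl a b c S N := by
  rw [G_eq hD s t h1 h2]; exact hT

section
variable {a b c : ℕ} (ha : 0 < a) (hb : 0 < b) (hc : 0 < c) (h : c ^ 2 = a ^ 2 + b ^ 2 + a * b)
include ha hb hc h

omit hc in
theorem piece_A :
    Tl a b c {z : ℝ × ℝ | 0 ≤ z.2 ∧ z.2 ≤ a * b ∧ 0 ≤ z.1 ∧ b * z.1 ≤ a * z.2} (a ^ 2) := by
  have hR : (c : ℝ) ^ 2 = a ^ 2 + b ^ 2 + a * b := by exact_mod_cast h
  have ha' : (0 : ℝ) < a := by exact_mod_cast ha
  have hb' : (0 : ℝ) < b := by exact_mod_cast hb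
  have hD : ((a : ℝ), (0 : ℝ)).1 * ((0 : ℝ), (-b : ℝ)).2 -
      ((a : ℝ), (0 : ℝ)).2 * ((0 : ℝ), (-b : ℝ)).1 ≠ 0 := by
    simp only [zero_mul, sub_zero]
    exact mul_ne_zero ha'.ne' (neg_ne_zero.2 hb'.ne')
  refine Tl.ofG (P := (0, (a : ℝ) * b)) (u := ((a : ℝ), 0)) (v := (0, -(b : ℝ)))
    (R := fun s t => 0 ≤ s ∧ 0 ≤ t ∧ s + t ≤ a) hD (fun z => z.1 / a)
    (fun z => (a * b - z.2) / b) ?_ ?_ ?_
  · apply TB.tri _ _ a ha
    apply TB.of hD
    · simp [q]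
    · simp [q]
    · simp only [q, Prod.mk_sub_mk]; rw [hR]; ring
  · intro z
    ext
    · simp; field_simp
    · simp; field_simp; ring
  · intro z
    simp only [Set.mem_ofPred_eq]
    have e : z.1 / a + (a * b - z.2) / b = (b * z.1 + a * (a * b - z.2)) / (a * b) := by
      field_simp
    rw [e, le_div_iff₀ ha', le_div_iff₀ hb', div_le_iff₀ (by positivity)]
    constructor
    · rintro ⟨h1, h2, h3, h4⟩
      refine ⟨by linarith, by linarith, by nlinarith⟩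
    · rintro ⟨h1, h2, h3⟩
      have h1' : 0 ≤ z.1 := by linarith
      have h4 : b * z.1 ≤ a * z.2 := by nlinarith
      have h5 : 0 ≤ a * z.2 := le_trans (by positivity) h4
      exact ⟨nonneg_of_mul_nonneg_right h5 ha', by linarith, h1', h4⟩

theorem beta_TB : TB a b c ((c : ℝ), (0 : ℝ)) ((a : ℝ) ^ 2 / c, (a : ℝ) * b / c) := by
  have hR : (c : ℝ) ^ 2 = a ^ 2 + b ^ 2 + a * b := by exact_mod_cast h
  have ha' : (0 : ℝ) < a := by exact_mod_cast ha
  have hb' : (0 : ℝ) < b := by exact_mod_cast hb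
  have hc' : (0 : ℝ) < c := by exact_mod_cast hc
  apply TB.of''
  · have : (0 : ℝ) < c * (a * b / c) - 0 * (a ^ 2 / c) := by
      rw [zero_mul, sub_zero]; positivity
    exact this.ne'
  · simp [q]
  · simp only [q]
    field_simp
    rw [hR]; ring
  · simp only [q, Prod.mk_sub_mk]
    field_simp
    have : (c : ℝ) ^ 2 - a ^ 2 = b ^ 2 + a * b := by linarith
    rw [this, hR]
    ring

theorem piece_strip (u : ℕ) :
    Tl a b c {z : ℝ × ℝ | 0 ≤ z.2 ∧ z.2 ≤ a * b ∧ a * z.2 + b * (u * c) ≤ b * z.1 ∧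
      b * z.1 ≤ a * z.2 + b * ((u + 1) * c)} (2 * c) := by
  have hR : (c : ℝ) ^ 2 = a ^ 2 + b ^ 2 + a * b := by exact_mod_cast h
  have ha' : (0 : ℝ) < a := by exact_mod_cast ha
  have hb' : (0 : ℝ) < b := by exact_mod_cast hb
  have hc' : (0 : ℝ) < c := by exact_mod_cast hc
  have hT := beta_TB ha hb hc h
  refine Tl.ofG (P := ((u : ℝ) * c, 0)) (u := ((c : ℝ), 0)) (v := ((a : ℝ) ^ 2 / c, (a : ℝ) * b / c))
    (R := fun s t => 0 ≤ s ∧ s ≤ 1 ∧ 0 ≤ t ∧ t ≤ c) hT.1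
    (fun z => (b * z.1 - b * (u * c) - a * z.2) / (b * c))
    (fun z => c * z.2 / (a * b)) ?_ ?_ ?_
  · exact hT.col _ c hc
  · intro z
    ext
    · simp; field_simp; ring
    · simp; field_simp
  · intro z
    simp only [Set.mem_ofPred_eq]
    rw [le_div_iff₀ (by positivity), div_le_iff₀ (by positivity), le_div_iff₀ (by positivity),
      div_le_iff₀ (by positivity)]
    constructor
    · rintro ⟨h1, h2, h3, h4⟩
      refine ⟨by nlinarith, by nlinarith, by nlinarith, by nlinarith⟩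
    · rintro ⟨h1, h2, h3, h4⟩
      refine ⟨?_, ?_, by nlinarith, by nlinarith⟩
      · have : 0 ≤ c * z.2 := by linarith
        exact nonneg_of_mul_nonneg_right this hc'
      · have : (c : ℝ) * z.2 ≤ c * (a * b) := by linarith
        exact le_of_mul_le_mul_left this hc'

theorem piece_P (u : ℕ) :
    Tl a b c {z : ℝ × ℝ | 0 ≤ z.2 ∧ z.2 ≤ a * b ∧ a * z.2 + b * (u * c) ≤ b * z.1 ∧
      a * z.1 + (a + b) * z.2 ≤ a * (u * c + c ^ 2)} (c ^ 2) := by
  have hR : (c : ℝ) ^ 2 = a ^ 2 + b ^ 2 + a * b := by exact_mod_cast h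
  have ha' : (0 : ℝ) < a := by exact_mod_cast ha
  have hb' : (0 : ℝ) < b := by exact_mod_cast hb
  have hc' : (0 : ℝ) < c := by exact_mod_cast hc
  have hT := beta_TB ha hb hc h
  refine Tl.ofG (P := ((u : ℝ) * c, 0)) (u := ((c : ℝ), 0)) (v := ((a : ℝ) ^ 2 / c, (a : ℝ) * b / c))
    (R := fun s t => 0 ≤ s ∧ 0 ≤ t ∧ s + t ≤ c) hT.1
    (fun z => (b * z.1 - b * (u * c) - a * z.2) / (b * c))
    (fun z => c * z.2 / (a * b)) ?_ ?_ ?_
  · exact hT.tri _ c hc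
  · intro z
    ext
    · simp; field_simp; ring
    · simp; field_simp
  · intro z
    simp only [Set.mem_ofPred_eq]
    have e : (b * z.1 - b * (u * c) - a * z.2) / (b * c) + c * z.2 / (a * b) =
        (b * (a * z.1 + (a + b) * z.2 - a * (u * c))) / (a * b * c) := by
      field_simp
      rw [hR]; ring
    rw [e, le_div_iff₀ (by positivity), le_div_iff₀ (by positivity), div_le_iff₀ (by positivity)]
    constructor
    · rintro ⟨h1, h2, h3, h4⟩
      refine ⟨by nlinarith, by nlinarith, by nlinarith⟩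
    · rintro ⟨h1, h2, h3⟩
      have g1 : 0 ≤ z.2 := by
        have : 0 ≤ c * z.2 := by linarith
        exact nonneg_of_mul_nonneg_right this hc'
      have g3 : a * z.2 + b * (u * c) ≤ b * z.1 := by linarith
      have g4 : a * z.1 + (a + b) * z.2 ≤ a * (u * c + c ^ 2) := by
        have : b * (a * z.1 + (a + b) * z.2) ≤ b * (a * (u * c + c ^ 2)) := by nlinarith
        exact le_of_mul_le_mul_left this hb'
      refine ⟨g1, ?_, g3, g4⟩
      -- eliminate x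
      have g5 : a * (a * z.2 + b * (u * c)) + b * ((a + b) * z.2) ≤
          b * (a * (u * c + c ^ 2)) := by nlinarith
      have g6 : (c : ℝ) ^ 2 * z.2 ≤ c ^ 2 * (a * b) := by
        have : (c : ℝ) ^ 2 * z.2 = (a ^ 2 + b ^ 2 + a * b) * z.2 := by rw [hR]
        nlinarith
      exact le_of_mul_le_mul_left g6 (by positivity)

theorem piece_B (u : ℕ) :
    Tl a b c {z : ℝ × ℝ | 0 ≤ z.2 ∧ z.2 ≤ a * b ∧
      a * (u * c + c ^ 2) ≤ a * z.1 + (a + b) * z.2 ∧ z.1 + z.2 ≤ u * c + c ^ 2} (b ^ 2) := by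
  have hR : (c : ℝ) ^ 2 = a ^ 2 + b ^ 2 + a * b := by exact_mod_cast h
  have ha' : (0 : ℝ) < a := by exact_mod_cast ha
  have hb' : (0 : ℝ) < b := by exact_mod_cast hb
  have hc' : (0 : ℝ) < c := by exact_mod_cast hc
  have hD : (-(b : ℝ), (0 : ℝ)).1 * ((a : ℝ), (-a : ℝ)).2 -
      (-(b : ℝ), (0 : ℝ)).2 * ((a : ℝ), (-a : ℝ)).1 ≠ 0 := by
    simp only [zero_mul, sub_zero]
    exact mul_ne_zero (neg_ne_zero.2 hb'.ne') (neg_ne_zero.2 ha'.ne')
  refine Tl.ofG (P := ((u : ℝ) * c + c ^ 2 - a * b, (a : ℝ) * b)) (u := (-(b : ℝ), 0))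
    (v := ((a : ℝ), -(a : ℝ)))
    (R := fun s t => 0 ≤ s ∧ 0 ≤ t ∧ s + t ≤ b) hD
    (fun z => (u * c + c ^ 2 - z.1 - z.2) / b)
    (fun z => (a * b - z.2) / a) ?_ ?_ ?_
  · apply TB.tri _ _ b hb
    apply TB.of' hD
    · simp [q]
    · simp only [q]; ring
    · simp only [q, Prod.mk_sub_mk]; rw [hR]; ring
  · intro z
    ext
    · simp; field_simp; ring
    · simp; field_simp; ring
  · intro z
    simp only [Set.mem_ofPred_eq]
    have e : (u * c + c ^ 2 - z.1 - z.2) / b + (a * b - z.2) / a =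
        (a * (u * c + c ^ 2 - z.1 - z.2) + b * (a * b - z.2)) / (a * b) := by
      field_simp
    rw [e, le_div_iff₀ hb', le_div_iff₀ ha', div_le_iff₀ (by positivity)]
    constructor
    · rintro ⟨h1, h2, h3, h4⟩
      refine ⟨by linarith, by linarith, by nlinarith⟩
    · rintro ⟨h1, h2, h3⟩
      have g4 : z.1 + z.2 ≤ u * c + c ^ 2 := by linarith
      have g3 : a * (u * c + c ^ 2) ≤ a * z.1 + (a + b) * z.2 := by nlinarith
      refine ⟨?_, by linarith, g3, g4⟩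
      have : 0 ≤ b * z.2 := by nlinarith
      exact nonneg_of_mul_nonneg_right this hb'

omit hc in
theorem piece_s (w : ℝ) :
    Tl a b c {z : ℝ × ℝ | 0 ≤ z.2 ∧ z.2 ≤ a * b ∧ w ≤ z.1 + z.2 ∧ z.1 + z.2 ≤ w + a}
      (2 * a) := by
  have hR : (c : ℝ) ^ 2 = a ^ 2 + b ^ 2 + a * b := by exact_mod_cast h
  have ha' : (0 : ℝ) < a := by exact_mod_cast ha
  have hb' : (0 : ℝ) < b := by exact_mod_cast hb
  have hD : ((a : ℝ), (0 : ℝ)).1 * ((-b : ℝ), (b : ℝ)).2 -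
      ((a : ℝ), (0 : ℝ)).2 * ((-b : ℝ), (b : ℝ)).1 ≠ 0 := by
    simp only [zero_mul, sub_zero]
    exact mul_ne_zero ha'.ne' hb'.ne'
  refine Tl.ofG (P := (w, 0)) (u := ((a : ℝ), 0)) (v := (-(b : ℝ), (b : ℝ)))
    (R := fun s t => 0 ≤ s ∧ s ≤ 1 ∧ 0 ≤ t ∧ t ≤ a) hD
    (fun z => (z.1 + z.2 - w) / a) (fun z => z.2 / b) ?_ ?_ ?_
  · apply TB.col _ _ a ha
    apply TB.of hD
    · simp [q]
    · simp only [q]; ring
    · simp only [q, Prod.mk_sub_mk]; rw [hR]; ring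
  · intro z
    ext
    · simp; field_simp; ring
    · simp; field_simp
  · intro z
    simp only [Set.mem_ofPred_eq]
    rw [le_div_iff₀ ha', div_le_iff₀ ha', le_div_iff₀ hb', div_le_iff₀ hb']
    constructor
    · rintro ⟨h1, h2, h3, h4⟩
      refine ⟨by linarith, by linarith, by linarith, by linarith⟩
    · rintro ⟨h1, h2, h3, h4⟩
      refine ⟨by linarith, by linarith, by linarith, by linarith⟩

omit hc in
theorem piece_t (w : ℝ) :
    Tl a b c {z : ℝ × ℝ | 0 ≤ z.2 ∧ z.2 ≤ a * b ∧ w ≤ z.1 + z.2 ∧ z.1 + z.2 ≤ w + b}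
      (2 * b) := by
  have hR : (c : ℝ) ^ 2 = a ^ 2 + b ^ 2 + a * b := by exact_mod_cast h
  have ha' : (0 : ℝ) < a := by exact_mod_cast ha
  have hb' : (0 : ℝ) < b := by exact_mod_cast hb
  have hD : ((b : ℝ), (0 : ℝ)).1 * ((-a : ℝ), (a : ℝ)).2 -
      ((b : ℝ), (0 : ℝ)).2 * ((-a : ℝ), (a : ℝ)).1 ≠ 0 := by
    simp only [zero_mul, sub_zero]
    exact mul_ne_zero hb'.ne' ha'.ne'
  refine Tl.ofG (P := (w, 0)) (u := ((b : ℝ), 0)) (v := (-(a : ℝ), (a : ℝ)))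
    (R := fun s t => 0 ≤ s ∧ s ≤ 1 ∧ 0 ≤ t ∧ t ≤ b) hD
    (fun z => (z.1 + z.2 - w) / b) (fun z => z.2 / a) ?_ ?_ ?_
  · apply TB.col _ _ b hb
    apply TB.of' hD
    · simp [q]
    · simp only [q]; ring
    · simp only [q, Prod.mk_sub_mk]; rw [hR]; ring
  · intro z
    ext
    · simp; field_simp; ring
    · simp; field_simp
  · intro z
    simp only [Set.mem_ofPred_eq]
    rw [le_div_iff₀ hb', div_le_iff₀ hb', le_div_iff₀ ha', div_le_iff₀ ha']
    constructor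
    · rintro ⟨h1, h2, h3, h4⟩
      refine ⟨by linarith, by linarith, by linarith, by linarith⟩
    · rintro ⟨h1, h2, h3, h4⟩
      refine ⟨by linarith, by linarith, by linarith, by linarith⟩

end

end Pool.Agent.Lib.Pd0305a
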