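import Pool.Agent.Lib.Pd0305a.Pieces

namespace Pool.Agent.Lib.Pd0305a

open Set

theorem Tl.union_sep {a b c : ℝ} {S T U : Set (ℝ × ℝ)} {N M : ℕ} (hS : Tl a b c S N)
    (hT : Tl a b c T M) (α β r : ℝ) (h : α ≠ 0 ∨ β ≠ 0)
    (h1 : ∀ z ∈ S, α * z.1 + β * z.2 ≤ r) (h2 : ∀ z ∈ T, r ≤ α * z.1 + β * z.2)
    (hU : ∀ z, z ∈ U ↔ z ∈ S ∨ z ∈ T) : Tl a b c U (N + M) := by
  have : U = S ∪ T := by ext z; exact hU z
  rw [this]
  exact hS.union hT (disj_of_sep α β r h h1 h2)

section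
variable {a b c : ℕ} (ha : 0 < a) (hb : 0 < b) (hc : 0 < c) (h : c ^ 2 = a ^ 2 + b ^ 2 + a * b)
include ha hb hc h

theorem row0 (u : ℕ) :
    Tl a b c {z : ℝ × ℝ | 0 ≤ z.2 ∧ z.2 ≤ a * b ∧ 0 ≤ z.1 ∧ b * z.1 ≤ a * z.2 + b * (u * c)}
      (a ^ 2 + 2 * u * c) := by
  have ha' : (0 : ℝ) < a := by exact_mod_cast ha
  have hb' : (0 : ℝ) < b := by exact_mod_cast hb
  have hc' : (0 : ℝ) < c := by exact_mod_cast hc
  induction u with
  | zero =>
    simpa using piece_A ha hb h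
  | succ u ih =>
    have hN : a ^ 2 + 2 * (u + 1) * c = (a ^ 2 + 2 * u * c) + 2 * c := by ring
    rw [hN]
    refine ih.union_sep (piece_strip ha hb hc h u) b (-a) (b * (u * c)) (Or.inl hb'.ne') ?_ ?_ ?_
    · rintro z ⟨_, _, _, h4⟩
      linarith
    · rintro z ⟨_, _, h3, _⟩
      linarith
    · intro z
      simp only [Set.mem_ofPred_eq]
      push_cast
      constructor
      · rintro ⟨h1, h2, h3, h4⟩
        rcases le_total (b * z.1) (a * z.2 + b * (u * c)) with h5 | h5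
        · exact Or.inl ⟨h1, h2, h3, h5⟩
        · exact Or.inr ⟨h1, h2, h5, h4⟩
      · rintro (⟨h1, h2, h3, h4⟩ | ⟨h1, h2, h3, h4⟩)
        · refine ⟨h1, h2, h3, ?_⟩
          have : 0 < (b : ℝ) * c := by positivity
          linarith
        · refine ⟨h1, h2, ?_, h4⟩
          have g1 : (0 : ℝ) ≤ a * z.2 := by positivity
          have g2 : (0 : ℝ) ≤ b * (u * c) := by positivity
          have : 0 ≤ b * z.1 := by linarith
          exact nonneg_of_mul_nonneg_right this hb'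

theorem row1 (u : ℕ) :
    Tl a b c {z : ℝ × ℝ | 0 ≤ z.2 ∧ z.2 ≤ a * b ∧ 0 ≤ z.1 ∧
      a * z.1 + (a + b) * z.2 ≤ a * (u * c + c ^ 2)}
      (a ^ 2 + 2 * u * c + c ^ 2) := by
  have hR : (c : ℝ) ^ 2 = a ^ 2 + b ^ 2 + a * b := by exact_mod_cast h
  have ha' : (0 : ℝ) < a := by exact_mod_cast ha
  have hb' : (0 : ℝ) < b := by exact_mod_cast hb
  have hc' : (0 : ℝ) < c := by exact_mod_cast hc
  refine (row0 ha hb hc h u).union_sep (piece_P ha hb hc h u) b (-a) (b * (u * c))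
    (Or.inl hb'.ne') ?_ ?_ ?_
  · rintro z ⟨_, _, _, h4⟩
    linarith
  · rintro z ⟨_, _, h3, _⟩
    linarith
  · intro z
    simp only [Set.mem_ofPred_eq]
    constructor
    · rintro ⟨h1, h2, h3, h4⟩
      rcases le_total (b * z.1) (a * z.2 + b * (u * c)) with h5 | h5
      · exact Or.inl ⟨h1, h2, h3, h5⟩
      · exact Or.inr ⟨h1, h2, h5, h4⟩
    · rintro (⟨h1, h2, h3, h4⟩ | ⟨h1, h2, h3, h4⟩)
      · refine ⟨h1, h2, h3, ?_⟩
        have e : b * (a * z.1 + (a + b) * z.2) ≤ b * (a * (u * c + c ^ 2)) := by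
          have g1 : a * (b * z.1) ≤ a * (a * z.2 + b * (u * c)) :=
            mul_le_mul_of_nonneg_left h4 ha'.le
          have g2 : (c : ℝ) ^ 2 * z.2 ≤ c ^ 2 * (a * b) :=
            mul_le_mul_of_nonneg_left h2 (by positivity)
          have g3 : (c : ℝ) ^ 2 * z.2 = (a ^ 2 + b ^ 2 + a * b) * z.2 := by rw [hR]
          nlinarith
        exact le_of_mul_le_mul_left e hb'
      · refine ⟨h1, h2, ?_, h4⟩
        have g1 : (0 : ℝ) ≤ a * z.2 := by positivity
        have g2 : (0 : ℝ) ≤ b * (u * c) := by positivity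
        have : 0 ≤ b * z.1 := by linarith
        exact nonneg_of_mul_nonneg_right this hb'

theorem row2 (u : ℕ) :
    Tl a b c {z : ℝ × ℝ | 0 ≤ z.2 ∧ z.2 ≤ a * b ∧ 0 ≤ z.1 ∧ z.1 + z.2 ≤ u * c + c ^ 2}
      (a ^ 2 + 2 * u * c + c ^ 2 + b ^ 2) := by
  have hR : (c : ℝ) ^ 2 = a ^ 2 + b ^ 2 + a * b := by exact_mod_cast h
  have ha' : (0 : ℝ) < a := by exact_mod_cast ha
  have hb' : (0 : ℝ) < b := by exact_mod_cast hb
  have hc' : (0 : ℝ) < c := by exact_mod_cast hc
  refine (row1 ha hb hc h u).union_sep (piece_B ha hb hc h u) a (a + b) (a * (u * c + c ^ 2))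
    (Or.inl ha'.ne') ?_ ?_ ?_
  · rintro z ⟨_, _, _, h4⟩
    linarith
  · rintro z ⟨_, _, h3, _⟩
    linarith
  · intro z
    simp only [Set.mem_ofPred_eq]
    constructor
    · rintro ⟨h1, h2, h3, h4⟩
      rcases le_total (a * z.1 + (a + b) * z.2) (a * (u * c + c ^ 2)) with h5 | h5
      · exact Or.inl ⟨h1, h2, h3, h5⟩
      · exact Or.inr ⟨h1, h2, h5, h4⟩
    · rintro (⟨h1, h2, h3, h4⟩ | ⟨h1, h2, h3, h4⟩)
      · refine ⟨h1, h2, h3, ?_⟩
        have e : a * (z.1 + z.2) ≤ a * (u * c + c ^ 2) := by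
          have : 0 ≤ b * z.2 := by positivity
          linarith
        exact le_of_mul_le_mul_left e ha'
      · refine ⟨h1, h2, ?_, h4⟩
        have g1 : ((a : ℝ) + b) * z.2 ≤ (a + b) * (a * b) :=
          mul_le_mul_of_nonneg_left h2 (by positivity)
        have g2 : (0 : ℝ) ≤ a * (u * c) := by positivity
        have g3 : (a : ℝ) * c ^ 2 = a * (a ^ 2 + b ^ 2 + a * b) := by rw [hR]
        have g4 : (0 : ℝ) ≤ a * a ^ 2 := by positivity
        have : 0 ≤ a * z.1 := by nlinarith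
        exact nonneg_of_mul_nonneg_right this ha'

theorem row3 (u s : ℕ) :
    Tl a b c {z : ℝ × ℝ | 0 ≤ z.2 ∧ z.2 ≤ a * b ∧ 0 ≤ z.1 ∧
      z.1 + z.2 ≤ u * c + c ^ 2 + s * a}
      (a ^ 2 + 2 * u * c + c ^ 2 + b ^ 2 + 2 * a * s) := by
  have hR : (c : ℝ) ^ 2 = a ^ 2 + b ^ 2 + a * b := by exact_mod_cast h
  have ha' : (0 : ℝ) < a := by exact_mod_cast ha
  have hb' : (0 : ℝ) < b := by exact_mod_cast hb
  have hc' : (0 : ℝ) < c := by exact_mod_cast hc
  induction s with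
  | zero => simpa using row2 ha hb hc h u
  | succ s ih =>
    have hN : a ^ 2 + 2 * u * c + c ^ 2 + b ^ 2 + 2 * a * (s + 1) =
      (a ^ 2 + 2 * u * c + c ^ 2 + b ^ 2 + 2 * a * s) + 2 * a := by ring
    rw [hN]
    refine ih.union_sep (piece_s ha hb h (u * c + c ^ 2 + s * a)) 1 1 (u * c + c ^ 2 + s * a)
      (Or.inl one_ne_zero) ?_ ?_ ?_
    · rintro z ⟨_, _, _, h4⟩
      linarith
    · rintro z ⟨_, _, h3, _⟩
      linarith
    · intro z
      simp only [Set.mem_ofPred_eq]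
      push_cast
      constructor
      · rintro ⟨h1, h2, h3, h4⟩
        rcases le_total (z.1 + z.2) (u * c + c ^ 2 + s * a) with h5 | h5
        · exact Or.inl ⟨h1, h2, h3, h5⟩
        · exact Or.inr ⟨h1, h2, h5, by linarith⟩
      · rintro (⟨h1, h2, h3, h4⟩ | ⟨h1, h2, h3, h4⟩)
        · exact ⟨h1, h2, h3, by linarith⟩
        · refine ⟨h1, h2, ?_, by linarith⟩
          have g2 : (0 : ℝ) ≤ u * c := by positivity
          have g3 : (0 : ℝ) ≤ s * a := by positivity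
          have g4 : (0 : ℝ) ≤ a ^ 2 + b ^ 2 := by positivity
          linarith

/-- the row: trapezoid with leg `ab` and bottom side `u c + c² + s a + t b` -/
theorem row4 (u s t : ℕ) :
    Tl a b c {z : ℝ × ℝ | 0 ≤ z.2 ∧ z.2 ≤ a * b ∧ 0 ≤ z.1 ∧
      z.1 + z.2 ≤ u * c + c ^ 2 + s * a + t * b}
      (a ^ 2 + 2 * u * c + c ^ 2 + b ^ 2 + 2 * a * s + 2 * b * t) := by
  have hR : (c : ℝ) ^ 2 = a ^ 2 + b ^ 2 + a * b := by exact_mod_cast h
  have ha' : (0 : ℝ) < a := by exact_mod_cast ha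
  have hb' : (0 : ℝ) < b := by exact_mod_cast hb
  have hc' : (0 : ℝ) < c := by exact_mod_cast hc
  induction t with
  | zero => simpa using row3 ha hb hc h u s
  | succ t ih =>
    have hN : a ^ 2 + 2 * u * c + c ^ 2 + b ^ 2 + 2 * a * s + 2 * b * (t + 1) =
      (a ^ 2 + 2 * u * c + c ^ 2 + b ^ 2 + 2 * a * s + 2 * b * t) + 2 * b := by ring
    rw [hN]
    refine ih.union_sep (piece_t ha hb h (u * c + c ^ 2 + s * a + t * b)) 1 1
      (u * c + c ^ 2 + s * a + t * b) (Or.inl one_ne_zero) ?_ ?_ ?_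
    · rintro z ⟨_, _, _, h4⟩
      linarith
    · rintro z ⟨_, _, h3, _⟩
      linarith
    · intro z
      simp only [Set.mem_ofPred_eq]
      push_cast
      constructor
      · rintro ⟨h1, h2, h3, h4⟩
        rcases le_total (z.1 + z.2) (u * c + c ^ 2 + s * a + t * b) with h5 | h5
        · exact Or.inl ⟨h1, h2, h3, h5⟩
        · exact Or.inr ⟨h1, h2, h5, by linarith⟩
      · rintro (⟨h1, h2, h3, h4⟩ | ⟨h1, h2, h3, h4⟩)
        · exact ⟨h1, h2, h3, by linarith⟩
        · refine ⟨h1, h2, ?_, by linarith⟩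
          have g2 : (0 : ℝ) ≤ u * c := by positivity
          have g3 : (0 : ℝ) ≤ s * a := by positivity
          have g5 : (0 : ℝ) ≤ t * b := by positivity
          have g4 : (0 : ℝ) ≤ a ^ 2 + b ^ 2 := by positivity
          linarith

/-- trapezoid with leg `j ab` and top `r ab`, `r ≥ k` -/
theorem trap {k s t u : ℕ} (hk : k * (a * b) = a ^ 2 + b ^ 2 + s * a + t * b + u * c)
    (j : ℕ) (hj : 1 ≤ j) : ∀ r : ℕ, k ≤ r →
    Tl a b c {z : ℝ × ℝ | 0 ≤ z.2 ∧ z.2 ≤ j * (a * b) ∧ 0 ≤ z.1 ∧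
      z.1 + z.2 ≤ (j + r) * (a * b)} (j * (j + 2 * r) * (a * b)) := by
  have hR : (c : ℝ) ^ 2 = a ^ 2 + b ^ 2 + a * b := by exact_mod_cast h
  have ha' : (0 : ℝ) < a := by exact_mod_cast ha
  have hb' : (0 : ℝ) < b := by exact_mod_cast hb
  have hc' : (0 : ℝ) < c := by exact_mod_cast hc
  have hkR : (k : ℝ) * (a * b) = a ^ 2 + b ^ 2 + s * a + t * b + u * c := by exact_mod_cast hk
  -- one row
  have one : ∀ r : ℕ, k ≤ r → Tl a b c {z : ℝ × ℝ | 0 ≤ z.2 ∧ z.2 ≤ a * b ∧ 0 ≤ z.1 ∧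
      z.1 + z.2 ≤ (1 + r) * (a * b)} ((1 + 2 * r) * (a * b)) := by
    intro r hr
    obtain ⟨d, rfl⟩ := Nat.exists_eq_add_of_le hr
    have h1 := row4 ha hb hc h u (s + d * b) t
    convert h1 using 1
    · ext z
      simp only [Set.mem_ofPred_eq]
      push_cast
      have : (1 + ((k : ℝ) + d)) * (a * b) = u * c + c ^ 2 + (s + d * b) * a + t * b := by
        rw [hR]; linear_combination hkR
      rw [this]
    · have : (1 + 2 * (k + d)) * (a * b) = a * b + 2 * (k * (a * b)) + 2 * d * (a * b) := by ring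
      rw [this, hk, h]; ring
  induction j, hj using Nat.le_induction with
  | base =>
    intro r hr
    simpa using one r hr
  | succ j hj ih =>
    intro r hr
    have hN : (j + 1) * (j + 1 + 2 * r) * (a * b) =
      j * (j + 2 * (r + 1)) * (a * b) + (1 + 2 * r) * (a * b) := by ring
    rw [hN]
    refine (ih (r + 1) (by omega)).union_sep ((one r hr).translate (0, j * (a * b))) 0 1
      (j * (a * b)) (Or.inr one_ne_zero) ?_ ?_ ?_
    · rintro z ⟨_, h2, _, _⟩
      linarith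
    · rintro z ⟨h1, _, _, _⟩
      simp only [Prod.snd_sub] at h1
      linarith
    · intro z
      simp only [Set.mem_ofPred_eq, Prod.fst_sub, Prod.snd_sub]
      push_cast
      constructor
      · rintro ⟨h1, h2, h3, h4⟩
        rcases le_total z.2 (j * (a * b)) with h5 | h5
        · exact Or.inl ⟨h1, h5, h3, by linarith⟩
        · exact Or.inr ⟨by linarith, by linarith, by linarith, by linarith⟩
      · have g : (0 : ℝ) < a * b := by positivity
        have g' : (0 : ℝ) ≤ j * (a * b) := by positivity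
        rintro (⟨h1, h2, h3, h4⟩ | ⟨h1, h2, h3, h4⟩)
        · exact ⟨h1, by linarith, h3, by linarith⟩
        · exact ⟨by linarith, by linarith, by linarith, by linarith⟩

/-- rotation by 120 degrees -/
def rot : (ℝ × ℝ) →ₗ[ℝ] (ℝ × ℝ) where
  toFun z := (-z.1 - z.2, z.1)
  map_add' x y := by ext <;> simp; ring
  map_smul' r x := by ext <;> simp; ring

omit ha hb hc h in
theorem rot_apply (z : ℝ × ℝ) : rot z = (-z.1 - z.2, z.1) := rfl

omit ha hb hc h in
theorem q_rot (z : ℝ × ℝ) : q (rot z) = q z := by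
  simp only [q, rot_apply]; ring

omit ha hb hc h in
theorem rot_inj : Function.Injective rot := by
  intro x y hxy
  rw [rot_apply, rot_apply, Prod.mk.injEq] at hxy
  ext
  · exact hxy.2
  · linarith [hxy.1, hxy.2]

omit ha hb hc h in
theorem Tl.rotate {a b c : ℝ} {S : Set (ℝ × ℝ)} {N : ℕ} (hS : Tl a b c S N) (X : ℝ) :
    Tl a b c {z | (z.2, X - z.1 - z.2) ∈ S} N := by
  have := hS.map (X, 0) rot q_rot rot_inj
  convert this using 1
  ext z
  simp only [Set.mem_ofPred_eq, mem_image, rot_apply]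
  constructor
  · intro hz
    refine ⟨_, hz, ?_⟩
    ext <;> simp; ring
  · rintro ⟨x, hx, rfl⟩
    simp only [Prod.mk_add_mk, zero_add]
    convert hx using 1
    ext <;> simp

/-- equilateral triangle of side `m a b` for every `m ≥ 3 k` -/
theorem triangle {k s t u : ℕ} (hk : k * (a * b) = a ^ 2 + b ^ 2 + s * a + t * b + u * c)
    (m : ℕ) (hm : 3 * k ≤ m) :
    Tl a b c {z : ℝ × ℝ | 0 ≤ z.1 ∧ 0 ≤ z.2 ∧ z.1 + z.2 ≤ m * (a * b)} (m ^ 2 * (a * b)) := by
  have ha' : (0 : ℝ) < a := by exact_mod_cast ha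
  have hb' : (0 : ℝ) < b := by exact_mod_cast hb
  have hk1 : 1 ≤ k := by
    rcases Nat.eq_zero_or_pos k with h0 | h0
    · subst h0
      have : 0 < a ^ 2 := by positivity
      omega
    · exact h0
  obtain ⟨p, rfl⟩ : ∃ p, m = k + p + k := ⟨m - 2 * k, by omega⟩
  have hp : k ≤ p := by omega
  have hab : (0 : ℝ) < a * b := by positivity
  have g1 : (0 : ℝ) ≤ k * (a * b) := by positivity
  have g2 : (0 : ℝ) ≤ p * (a * b) := by positivity
  -- region 1: y ≤ k ab, x ≥ p ab;  region 2 : w ≤ k ab, y ≥ k ab; region 3 : x ≤ p ab, w ≥ k ab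
  have R1 := (trap ha hb hc h hk k hk1 k le_rfl).translate (p * (a * b), 0)
  have R2 := (((trap ha hb hc h hk k hk1 p hp).translate (k * (a * b), 0)).rotate
    ((k + p + k) * (a * b)))
  have R3 := (((trap ha hb hc h hk p (by omega) k le_rfl).translate (k * (a * b), 0)).rotate
    ((k + p + k) * (a * b))).rotate ((k + p + k) * (a * b))
  have hU := R1.union3 R2 R3 ?_ ?_ ?_
  · convert hU using 1
    · ext z
      simp only [Set.mem_ofPred_eq, mem_union, Prod.fst_sub, Prod.snd_sub]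
      push_cast
      constructor
      · rintro ⟨h1, h2, h3⟩
        rcases le_total z.2 (k * (a * b)) with h4 | h4
        · rcases le_total z.1 (p * (a * b)) with h5 | h5
          · refine Or.inr ⟨?_, ?_, ?_, ?_⟩ <;> linarith
          · refine Or.inl (Or.inl ⟨?_, ?_, ?_, ?_⟩) <;> linarith
        · rcases le_total (((p : ℝ) + k) * (a * b)) (z.1 + z.2) with h5 | h5
          · refine Or.inl (Or.inr ⟨?_, ?_, ?_, ?_⟩) <;> linarith
          · refine Or.inr ⟨?_, ?_, ?_, ?_⟩ <;> linarith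
      · rintro ((⟨h1, h2, h3, h4⟩ | ⟨h1, h2, h3, h4⟩) | ⟨h1, h2, h3, h4⟩)
        · refine ⟨?_, ?_, ?_⟩ <;> linarith
        · refine ⟨?_, ?_, ?_⟩ <;> linarith
        · refine ⟨?_, ?_, ?_⟩ <;> linarith
    · ring
  · apply disj_of_sep 0 1 (k * (a * b)) (Or.inr one_ne_zero)
    · rintro z ⟨h1, h2, h3, h4⟩
      simp only [Prod.snd_sub] at h2
      linarith
    · rintro z ⟨h1, h2, h3, h4⟩
      simp only [Prod.mk_sub_mk] at h3
      linarith
  · apply disj_of_sep (-1) 0 (-(p * (a * b))) (Or.inl (by norm_num))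
    · rintro z ⟨h1, h2, h3, h4⟩
      simp only [Prod.fst_sub] at h3
      linarith
    · rintro z ⟨h1, h2, h3, h4⟩
      simp only [Prod.mk_sub_mk] at h2
      linarith
  · apply disj_of_sep (-1) (-1) (-((k + p) * (a * b))) (Or.inl (by norm_num))
    · rintro z ⟨h1, h2, h3, h4⟩
      simp only [Prod.mk_sub_mk] at h2
      linarith
    · rintro z ⟨h1, h2, h3, h4⟩
      simp only [Prod.mk_sub_mk] at h3
      linarith

end

end Pool.Agent.Lib.Pd0305a
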